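import Pool.Agent.E8helper93.NM.Norm

/-!
# MP_9f0d12_co, Q1: norms in which `n` points always determine `n - 1` distances

For every `d ≥ 1` there is `N₀` such that for every `n ≥ N₀` there is a norm `ν` on `ℝ ^ d` in which
the minimum number of distinct distances determined by `n` points is exactly `n - 1`.
-/

set_option autoImplicit false

namespace Pool.Agent.Results.MP_9f0d12_co.NormsFullH93

open Finset Pool.Agent.E8helper93.NM

/-- `ν` is a norm on `ℝ ^ d`. -/
structure IsNorm {d : ℕ} (ν : (Fin d → ℝ) → ℝ) : Prop where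
  nonneg : ∀ x, 0 ≤ ν x
  eq_zero : ∀ x, ν x = 0 → x = 0
  smul : ∀ (t : ℝ) (x : Fin d → ℝ), ν (t • x) = |t| * ν x
  add_le : ∀ x y, ν (x + y) ≤ ν x + ν y

/-- The number of distinct distances `ν (x - y)`, over the pairs of distinct points of `P`. -/
noncomputable def Delta {d : ℕ} (ν : (Fin d → ℝ) → ℝ) (P : Finset (Fin d → ℝ)) : ℕ :=
  (P.offDiag.image (fun x => ν (x.1 - x.2))).card

/-- The minimum number of distinct distances determined by `n` points of `ℝ ^ d`. -/
noncomputable def Dmin {d : ℕ} (ν : (Fin d → ℝ) → ℝ) (n : ℕ) : ℕ :=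
  sInf {k | ∃ P : Finset (Fin d → ℝ), P.card = n ∧ Delta ν P = k}

/-- Equally spaced points on a line. -/
theorem few {d : ℕ} (hd : 1 ≤ d) {ν : (Fin d → ℝ) → ℝ} (hν : IsNorm ν) (n : ℕ) :
    ∃ P : Finset (Fin d → ℝ), P.card = n ∧ Delta ν P ≤ n - 1 := by
  classical
  obtain ⟨e, he⟩ : ∃ e : Fin d → ℝ, e = fun _ => 1 := ⟨_, rfl⟩
  have he0 : e ≠ 0 := by
    rw [he]
    intro h
    exact one_ne_zero (congrFun h ⟨0, by omega⟩)
  have hinj : Function.Injective (fun i : ℕ => (i : ℝ) • e) := by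
    intro i j hij
    have h1 : (i : ℝ) = j := smul_left_injective ℝ he0 hij
    exact_mod_cast h1
  refine ⟨(range n).image (fun i : ℕ => (i : ℝ) • e), ?_, ?_⟩
  · rw [card_image_of_injective _ hinj, card_range]
  · have h1 : ((range n).image (fun i : ℕ => (i : ℝ) • e)).offDiag.image
        (fun x => ν (x.1 - x.2)) ⊆ (Ioo 0 n).image (fun k : ℕ => (k : ℝ) * ν e) := by
      intro t ht
      obtain ⟨x, hx, rfl⟩ := mem_image.1 ht
      rw [mem_offDiag] at hx
      obtain ⟨hx1, hx2, hx3⟩ := hx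
      obtain ⟨i, hi, hi'⟩ := mem_image.1 hx1
      obtain ⟨j, hj, hj'⟩ := mem_image.1 hx2
      rw [mem_range] at hi hj
      rw [← hi', ← hj'] at hx3
      rw [← hi', ← hj', ← sub_smul, hν.smul]
      have hij : i ≠ j := fun h => hx3 (by rw [h])
      rcases lt_or_gt_of_ne hij with h | h
      · refine mem_image.2 ⟨j - i, mem_Ioo.2 ⟨by omega, by omega⟩, ?_⟩
        rw [Nat.cast_sub h.le, abs_sub_comm, abs_of_nonneg (sub_nonneg.2 (by exact_mod_cast h.le))]
      · refine mem_image.2 ⟨i - j, mem_Ioo.2 ⟨by omega, by omega⟩, ?_⟩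
        rw [Nat.cast_sub h.le, abs_of_nonneg (sub_nonneg.2 (by exact_mod_cast h.le))]
    unfold Delta
    refine (card_le_card h1).trans (card_image_le.trans ?_)
    rw [Nat.card_Ioo]
    omega

/-- For every `d ≥ 1` there is `N₀` such that for every `n ≥ N₀` some norm on `ℝ ^ d` has the
property that the minimum number of distinct distances determined by `n` points is `n - 1`. -/
theorem result (d : ℕ) (hd : 1 ≤ d) : ∃ N₀ : ℕ, ∀ n, N₀ ≤ n →
    ∃ ν : (Fin d → ℝ) → ℝ, IsNorm ν ∧ Dmin ν n = n - 1 := by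
  obtain ⟨N, hN⟩ := many d
  refine ⟨N, fun n hn => ?_⟩
  obtain ⟨c, hc, hpos⟩ := exists_indep (Fin d → Fin (2 * (n ^ 2 + 1) + 1))
  have hq : 1 ≤ n ^ 2 + 1 := by omega
  have hν : IsNorm (nu c) := ⟨nu_nonneg hpos, fun x => nu_eq_zero hq hpos, nu_smul hq hpos,
    nu_add hq hpos⟩
  refine ⟨nu c, hν, ?_⟩
  have hlow : ∀ P : Finset (Fin d → ℝ), P.card = n → n - 1 ≤ Delta (nu c) P := by
    intro P hP
    have h1 := hN n hn (n ^ 2 + 1) hq (by omega) c hc hpos P hP
    unfold Delta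
    omega
  obtain ⟨P, hP, hPD⟩ := few hd hν n
  have hmem : n - 1 ∈ {k | ∃ P : Finset (Fin d → ℝ), P.card = n ∧ Delta (nu c) P = k} :=
    ⟨P, hP, le_antisymm hPD (hlow P hP)⟩
  apply le_antisymm
  · exact Nat.sInf_le hmem
  · refine le_csInf ⟨_, hmem⟩ ?_
    rintro k ⟨P', hP', rfl⟩
    exact hlow P' hP'

end Pool.Agent.Results.MP_9f0d12_co.NormsFullH93
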